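import Pool.Agent.Lib.MP_629918_an.Bridge

/-!
# MP_629918_an, Q1: the order of the entropy numbers of `W^{a,b}_1` in `L_p`, small smoothness

For `1 < p < 2`, `1 - 1/p < a ≤ 1/2` and every real `b`,
`ε_k(W^{a,b}_1, L_p) ≍ k^{-a} (log k)^{a+b}`.

Idea of the proof.  The new ingredient is an estimate for one hyperbolic layer `f_l`: by a Riesz
product argument the sum over the `l + 1` dyadic blocks of the layer of the (discretised) `L¹` norms
of the blocks is at most `C √(l+1) ‖f_l‖₁`.  So the unit ball of the layer in `L¹` lies in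
`C √(l+1)` times the absolutely convex hull of about `(l+1) 2^l` atoms of `L²` norm `√(2^l)`, and
Maurey's method covers it in `L²` by `2^m` balls of radius about `(D/m)^{1/2}`, `D = (l+1) 2^l`,
up to a logarithmic factor in the number of bits.  Interpolation between `L¹` and `L²`
gives the radius `(D/m)^{1-1/p}` in `L^p`, and as `a > 1 - 1/p` these bounds may be added over
`l`.  The lower bound is the usual comparison of volumes.
-/

set_option autoImplicit false

open Filter Asymptotics Pool.Agent.Lib.MP_629918_an

namespace Pool.Agent.Results.MP_629918_an.EntropyOrder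

/-- For `1 < p < 2`, `1 - 1/p < a ≤ 1/2` and real `b`: the class `W^{a,b}_1` is a compact subset
of `L^p`, and its entropy numbers in `L^p` are of the exact order `k^{-a} (log k)^{a+b}`. -/
theorem result (p a b : ℝ) (hp1 : 1 < p) (hp2 : p < 2) (ha1 : 1 - 1 / p < a) (ha2 : a ≤ 1 / 2) :
    CompactLp p (classW a b) ∧
    (fun k : ℕ => entropyNumber p k (classW a b)) =Θ[atTop]
      (fun k : ℕ => (k : ℝ) ^ (-a) * (Real.log k) ^ (a + b)) := by
  have hfact : Fact (1 ≤ ENNReal.ofReal p) := ⟨by
    rw [← ENNReal.ofReal_one]; exact ENNReal.ofReal_le_ofReal hp1.le⟩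
  refine ⟨compactLp hp1 hp2 ha1 ha2, ?_⟩
  simp only [entropyNumber_eq hp1 hp2 ha1]
  exact isTheta hp1 hp2 ha1 ha2

end Pool.Agent.Results.MP_629918_an.EntropyOrder
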